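import Pool.Agent.Q192.QD.ExpAll
import Pool.Agent.Q192.QD.Sigma

/-!
# Axiom (SEAC) (i) in the complex exponential field: the solutions for almost all algebraic values of a parameter

Let `V_a ⊆ ℂ^n × (ℂ^*)^n` be an algebraic family of varieties of dimension `n`, for instance free and rotund ones, which
depends on a parameter `a`, and let `(z(a), exp z(a)) ∈ V_a` be a solution which depends analytically on `a`. The axiom
(SEAC) (i) asks for solutions which are generic over the field of definition: `tr.deg_(ℚ(a)) (z(a), exp z(a)) = n = dim V_a`.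
For algebraic `a` this is a consequence of Schanuel's conjecture (if the numbers `z_i(a)` are linearly independent over `ℚ`).
The genericity of solutions over fixed varieties over number fields is not known, even for `n = 2`.

We use the following form: `U` is an open connected set, `z_1, …, z_n` are analytic on `U`, no nontrivial combination
`∑ m_i z_i` with integral coefficients is constant, and `B` is a set of `n` of the `2 n` functions `z_i, exp z_i` such that all
`2 n` functions are algebraic over the field `ℂ(a, B)`: for a family of varieties `V_a` of dimension `n` one can take `n`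
coordinates which are algebraically independent on the total space of the family over `ℂ(a)`.

Let `X_1, …, X_N` be **any** finite sets of algebraic numbers of degree at most `m` and height at most `T`, in given compact
sets, and let `φ_j` be the number of the different fields `ℚ(x)`, `x ∈ X_j`. We prove for `N` such families that for all
`N`-tuples of parameters in `X_1 × ⋯ × X_N`, with at most

  `C T^ε ∑_j φ_j ∏_(i ≠ j) |X_i|`

exceptions, the coordinates in `B_1, …, B_N` of the solutions of the `N` systems do not satisfy any (approximate) relation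
of degree at most `d` in each variable, whose coefficients are combinations of arbitrary complex numbers `ξ_1, …, ξ_g` with
coefficients in the integers of the field `ℚ(x_1, …, x_N)`, of size at most `T^A`. So in this range the solution of the system
`V_(x_1) × ⋯ × V_(x_N)`, of dimension `∑ n_j`, is a generic point, over the field of definition, and also over the extension
of this field by fixed numbers `ξ_i` (the axiom asks for the genericity over arbitrary finitely generated fields).

Proof: by Ax's theorem `n + 1` of the functions `a, z_i, exp z_i` are independent (`Pool.Agent.Y776.Cv.Fix`), hence `a` and the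
functions in `B`; then the counting theorem for finite sets of algebraic numbers (`Pool.Agent.Q192.QD`, from
`Pool.Agent.Y124`).
-/

set_option autoImplicit false

namespace Pool.Agent.Results.MP_209724_lc.GenericSolutions

/-- The functions `z_i` (`Sum.inl i`) and `exp z_i` (`Sum.inr i`). -/
noncomputable def value {n : ℕ} (z : Fin n → ℂ → ℂ) (a : ℂ) : Fin n ⊕ Fin n → ℂ :=
  Sum.elim (fun i => z i a) (fun i => Complex.exp (z i a))

/-- `f` is algebraic over the field generated over `ℂ` by `a` and the functions `h b`, `b ∈ B`, on `U`: there is a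
polynomial `Q` in one variable with coefficients in `ℂ[a, h]`, which is not zero as a function on `U`, with `Q(f) = 0`. -/
def AlgebraicOver (U : Set ℂ) {B : Type} (h : B → ℂ → ℂ) (f : ℂ → ℂ) : Prop :=
  ∃ Q : Polynomial (MvPolynomial (Option B) ℂ),
    (∃ a ∈ U, Q.map (MvPolynomial.eval fun o : Option B => o.elim a fun b => h b a) ≠ 0) ∧
    ∀ a ∈ U, (Q.map (MvPolynomial.eval fun o : Option B => o.elim a fun b => h b a)).eval (f a) = 0

/-- A family of solutions `(z(a), exp z(a))` and `n` of the `2 n` functions over which all are algebraic. -/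
structure Solution (U : Set ℂ) {n : ℕ} (z : Fin n → ℂ → ℂ) (B : Finset (Fin n ⊕ Fin n)) : Prop where
  pos : 0 < n
  isOpen : IsOpen U
  isPreconnected : IsPreconnected U
  nonempty : U.Nonempty
  analytic : ∀ i, AnalyticOnNhd ℂ (z i) U
  /-- no nontrivial combination with integral coefficients of the `z_i` is constant -/
  free : ∀ (m : Fin n → ℤ) (c : ℂ), (∀ a ∈ U, ∑ i, (m i : ℂ) * z i a = c) → m = 0
  card : B.card = n
  /-- all functions are algebraic over `ℂ(a, B)` -/
  algebraic : ∀ o, AlgebraicOver U (fun (b : {b // b ∈ B}) a => value z a b.1) (fun a => value z a o)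

/-- The algebraic numbers which are zeros of nonzero polynomials of degree at most `m` with integral coefficients of
absolute value at most `T`. -/
def Numbers (m : ℕ) (T : ℝ) : Set ℂ :=
  {x | ∃ P : Polynomial ℤ, P ≠ 0 ∧ P.natDegree ≤ m ∧ (∀ i, |(P.coeff i : ℝ)| ≤ T) ∧ Polynomial.aeval x P = 0}

/-- The algebraic integers of the field generated by `S` all of whose conjugates have absolute value at most `H`. -/
def Integers (S : Set ℂ) (H : ℝ) : Set ℂ :=
  {c | c ∈ IntermediateField.adjoin ℚ S ∧ IsIntegral ℤ c ∧ ∀ z ∈ (minpoly ℚ c).aroots ℂ, ‖z‖ ≤ H}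

/-- The number of the different fields `ℚ(x)`, `x ∈ X`. -/
noncomputable def fields (X : Finset ℂ) : ℕ :=
  Set.ncard {G : IntermediateField ℚ ℂ | ∃ x ∈ X, G = IntermediateField.adjoin ℚ {x}}

/-- The `N`-tuples `x`, `x_j ∈ X_j`, for which there is a polynomial `P` of degree at most `d` in each variable, with
coefficients of the form `∑ ξ_i c_i`, where the `c_i` are integers of the field `ℚ(x_1, …, x_N)` all of whose conjugates
have absolute value at most `T ^ A`, such that the value of `P` at the numbers `v j (x j) i` is at most `T ^ (-E)` times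
the absolute value of some nonzero coefficient of `P`. -/
def Exceptional {N : ℕ} (d : ℕ) {g : ℕ} {J : Fin N → Type} (v : ∀ j, ℂ → J j → ℂ) (X : Fin N → Finset ℂ)
    (ξ : Fin g → ℂ) (A E T : ℝ) : Set (Fin N → ℂ) :=
  {x | (∀ j, x j ∈ X j) ∧ ∃ P : MvPolynomial (Σ j, J j) ℂ, (∀ y, P.degreeOf y ≤ d) ∧
    (∀ s, ∃ c : Fin g → ℂ, (∀ i, c i ∈ Integers (Set.range x) (T ^ A)) ∧ P.coeff s = ∑ i, ξ i * c i) ∧
    ∃ s₀, P.coeff s₀ ≠ 0 ∧
      ‖MvPolynomial.aeval (fun y : Σ j, J j => v y.1 (x y.1) y.2) P‖ ≤ T ^ (-E) * ‖P.coeff s₀‖}

theorem value_eq {n : ℕ} (z : Fin n → ℂ → ℂ) (a : ℂ) (o : Fin n ⊕ Fin n) : value z a o = Q192.QD.yE z o a := by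
  rcases o with o | o <;> rfl

theorem value_an {U : Set ℂ} {n : ℕ} {z : Fin n → ℂ → ℂ} {B : Finset (Fin n ⊕ Fin n)} (h : Solution U z B)
    (o : Fin n ⊕ Fin n) : AnalyticOnNhd ℂ (fun a => value z a o) U := by
  rcases o with o | o
  · exact h.analytic o
  · exact fun a ha => (h.analytic o a ha).cexp

/-- the functions in `B` are independent -/
theorem loc {U : Set ℂ} {n : ℕ} {z : Fin n → ℂ → ℂ} {B : Finset (Fin n ⊕ Fin n)} (h : Solution U z B) :
    ∀ t ∈ U, Y124.LocInd (fun (b : {b // b ∈ B}) a => value z a b.1) t :=
  Q192.QD.expAll h.pos h.isOpen h.isPreconnected h.nonempty h.analytic h.free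
    (by rw [Fintype.card_coe, h.card]) (fun b => value_an h b.1) fun o => by
      have h1 := h.algebraic o
      have h2 : (fun a => value z a o) = Q192.QD.yE z o := funext fun a => value_eq z a o
      rw [h2] at h1
      exact h1

/-- For `N` families of solutions (equal or different), with the sets `B_j` of `n_j` functions, for all compact sets `K_j`
in `U_j` and all `m`, `g`, `d`, `A` and `ε > 0` there are `E`, `C`, `T₀` such that for all complex numbers `ξ_1, …, ξ_g`, all
`T ≥ T₀` and all finite sets `X_j ⊆ K_j` of algebraic numbers of degree at most `m` and height at most `T` the number of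
`N`-tuples in `X_1 × ⋯ × X_N` which are exceptional for the functions in the `B_j` is at most
`C T^ε ∑_j (number of the fields ℚ(x), x ∈ X_j) ∏_(i ≠ j) |X_i|`. -/
theorem result {N : ℕ} {n : Fin N → ℕ} (U : Fin N → Set ℂ) (z : ∀ j, Fin (n j) → ℂ → ℂ)
    (B : ∀ j, Finset (Fin (n j) ⊕ Fin (n j))) (hU : ∀ j, Solution (U j) (z j) (B j))
    (K : Fin N → Set ℂ) (hK : ∀ j, IsCompact (K j)) (hKU : ∀ j, K j ⊆ U j) (m g d : ℕ) (A ε : ℝ) (hε : 0 < ε) :
    ∃ E C T₀ : ℝ, ∀ (ξ : Fin g → ℂ) (T : ℝ), T₀ ≤ T → ∀ X : Fin N → Finset ℂ,
      (∀ j, ∀ x ∈ X j, x ∈ K j ∧ x ∈ Numbers m T) →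
      (Exceptional d (fun j a (b : {b // b ∈ B j}) => value (z j) a b.1) X ξ A E T).Finite ∧
        ((Exceptional d (fun j a (b : {b // b ∈ B j}) => value (z j) a b.1) X ξ A E T).ncard : ℝ) ≤
          C * T ^ ε * ∑ j, (fields (X j) : ℝ) * ∏ i ∈ Finset.univ.erase j, ((X i).card : ℝ) := by
  classical
  obtain ⟨E, C, T₀, H⟩ := Q192.QD.fields_sigma (η := Fin g) m N d
    (fun j => (hU j).isOpen) (fun j => (hU j).isPreconnected)
    (y := fun j (b : {b // b ∈ B j}) a => value (z j) a b.1)
    (fun j b => value_an (hU j) b.1) (fun j => loc (hU j)) hK hKU A ε hε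
  refine ⟨E, C, T₀, fun ξ T hT X hX => H ξ T hT X hX _ ?_⟩
  rintro x ⟨hx, P, hPd, hPc, s₀, hs₀, hs⟩
  exact ⟨hx, P, hPd, hPc, s₀, hs₀, hs⟩

end Pool.Agent.Results.MP_209724_lc.GenericSolutions
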