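import Mathlib
import Pool.Agent.Q29.OvX
import Pool.Agent.Q23.AQ.It

/-!
# Iterated exponentials in `(ℂ, exp)` over arbitrary constants: uniform distribution of the multiples of the values

Let `E_1(t) = e ^ t`, `E_{k+1}(t) = e ^ (E_k(t))`, and let `x_1, …, x_r` be distinct real numbers greater than `-a`. For algebraic
`t ≠ 0` and `x_i` the axiom (SC), for the `1 + (s - 1) + r` numbers `t, E_1(t), …, E_{s-1}(t), log (t + x_i)`, says that the numbers
`E_1(t), …, E_s(t)`, `log (t + x_i)` are algebraically independent, if the `t + x_i` are multiplicatively independent, and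
for several numbers `t` correspondingly. With the axiom (SK), for `2 π i` in addition, they are so over `ℚ(π)`.
Let `ξ_1, …, ξ_g` be ARBITRARY real numbers, which may depend on `T` and may be as large as `T ^ H`, for instance
`π` (as in (SC) for `2 π i` and these numbers).
Let `F` be a number field of degree at most `m` with an embedding in the complex numbers, and let `X` be any finite set of
numbers of `F` in `[a, b]` which are quotients of integers of `F` with conjugates at most `T`. For all but `C T ^ ε |X| ^ (n - 1)`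
of the `n`-tuples of elements `q_j` of `X` the following holds: every value `y` of a polynomial of partial degrees at most `d` at
the numbers `E_k(q_j)`, `log (q_j + x_i)`, whose coefficients are polynomials in the `ξ_i` of partial degrees at most `d` with integer
coefficients at most `T ^ A`, one of the nonconstant ones being at least `T ^ (-H)` in absolute value, has uniformly distributed
multiples at all the scales `M` between `T ^ B` and `T ^ E`: `k y`, `k < M`, also for `k` in the set of the powers of fixed exponent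
or of the prime numbers in a residue class, is uniformly distributed modulo one with an error `M ^ (1 - κ)`. The constants do not
depend on the field, on the set `X` and on the numbers `ξ_i`.
In particular the set of counterexamples of this kind to (SC) in `(ℂ, exp)`, of bounded degree and polynomially bounded height,
is sparse in every finite set of points.

The proof uses the theorem of helper23 on approximate relations over arbitrary constants at algebraic points (`Q23.AQ.fewR`,
from the starting files `Y124`, `Y771`), the independence of the functions (`Q23.AQ.It.ind`, `Q23.AQ.comb_log`), an inverse theorem for the sums of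
Weyl and a form of the estimate of Vinogradov for the sums over primes with a power saving (`H373R2/NB`, `W110/HV`).
-/

set_option autoImplicit false

namespace Pool.Agent.Results.MP_209724_lc.MultiplesOfIteratedExponentials

open Finset Polynomial

/-- The multiples of `x` are uniformly distributed at the scale `M`, with a power saving, along all polynomials of degree
at most `K` and along the primes of all residue classes:

* for every nonzero integer `b` with `|b| ≤ M ^ κ`, every `1 ≤ k ≤ K` and every real polynomial `R` of degree less than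
  `k`, the number of `0 ≤ n < M` with the fractional part of `b x n ^ k + R(n)` in `[u, v)` is `(v - u) M` up to
  `M ^ (1 - κ)`, for all `0 ≤ u ≤ v ≤ 1`;
* for every such `b`, every `1 ≤ d ≤ M ^ κ`, every `r` and every real `β`, the number of primes `p ≤ M` with
  `p ≡ r (mod d)` and the fractional part of `b x p + β` in `[u, v)` is `(v - u)` times the number of all the primes
  `p ≤ M` with `p ≡ r (mod d)`, up to `M ^ (1 - κ)`. -/
def Good (κ : ℝ) (K M : ℕ) (x : ℝ) : Prop :=
  (∀ b : ℤ, b ≠ 0 → |(b : ℝ)| ≤ (M : ℝ) ^ κ → ∀ k : ℕ, 1 ≤ k → k ≤ K → ∀ R : ℝ[X], R.degree < k →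
    ∀ u v : ℝ, 0 ≤ u → u ≤ v → v ≤ 1 →
      |(((range M).filter fun n : ℕ => u ≤ Int.fract (b * x * (n : ℝ) ^ k + R.eval (n : ℝ)) ∧
          Int.fract (b * x * (n : ℝ) ^ k + R.eval (n : ℝ)) < v).card : ℝ) - (v - u) * M| ≤
        (M : ℝ) ^ (1 - κ)) ∧
  (∀ b : ℤ, b ≠ 0 → |(b : ℝ)| ≤ (M : ℝ) ^ κ → ∀ d r : ℕ, 1 ≤ d → (d : ℝ) ≤ (M : ℝ) ^ κ → ∀ β : ℝ,
    ∀ u v : ℝ, 0 ≤ u → u ≤ v → v ≤ 1 →
      |(((range (M + 1)).filter fun p : ℕ => (p.Prime ∧ p ≡ r [MOD d]) ∧
          (u ≤ Int.fract (b * x * p + β) ∧ Int.fract (b * x * p + β) < v)).card : ℝ) -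
        (v - u) * ((range (M + 1)).filter fun p : ℕ => p.Prime ∧ p ≡ r [MOD d]).card| ≤
        (M : ℝ) ^ (1 - κ))

/-- The value at `y` of the polynomial `P` whose coefficients are integer polynomials in the numbers `ξ_1, …, ξ_g`. -/
noncomputable def value {g : ℕ} {τ : Type} (ξ : Fin g → ℝ) (y : τ → ℝ) (P : MvPolynomial τ (MvPolynomial (Fin g) ℤ)) : ℝ :=
  MvPolynomial.eval₂ (MvPolynomial.aeval ξ : MvPolynomial (Fin g) ℤ →ₐ[ℤ] ℝ).toRingHom y P

/-- The polynomials of degree at most `d` in every variable whose coefficients are polynomials in `ξ_1, …, ξ_g` of degree at most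
`d` in every variable with integer coefficients of absolute value at most `R`, with a nonconstant coefficient whose value is at
least `r` in absolute value. -/
def Admissible {g : ℕ} {τ : Type} (ξ : Fin g → ℝ) (d : ℕ) (R r : ℝ) (P : MvPolynomial τ (MvPolynomial (Fin g) ℤ)) : Prop :=
  (∀ j, P.degreeOf j ≤ d) ∧ (∀ e i, (P.coeff e).degreeOf i ≤ d) ∧ (∀ e u, |(((P.coeff e).coeff u : ℤ) : ℝ)| ≤ R) ∧
    ∃ e, e ≠ 0 ∧ r ≤ |MvPolynomial.aeval ξ (P.coeff e)|

/-- The numbers of a number field `F`, with an embedding `ι`, which are in `[a, b]` and are quotients of integers of `F` all of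
whose conjugates have absolute value at most `T`. -/
def IsPoint {F : Type} [Field F] (ι : F →+* ℂ) (a b T : ℝ) (x : F) : Prop :=
  (∃ t : ℝ, a ≤ t ∧ t ≤ b ∧ ι x = t) ∧
    ∃ α β : NumberField.RingOfIntegers F, β ≠ 0 ∧ (∀ φ : F →+* ℂ, ‖φ α‖ ≤ T ∧ ‖φ β‖ ≤ T) ∧ x = α / β

/-- The `n`-tuples `q` of numbers of `X` for which there are an admissible polynomial `P` and an `M` between `T ^ B` and `T ^ E`
such that the multiples of its value at the numbers `f_i(q_j)` are not uniformly distributed at the scale `M`. -/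
def Exceptional {κ F : Type} [Field F] {g : ℕ} (n : ℕ) (f : κ → ℝ → ℝ) (ι : F →+* ℂ) (X : Finset F) (ξ : Fin g → ℝ)
    (d K : ℕ) (A H κ₀ B E T : ℝ) : Set (Fin n → F) :=
  {q | (∀ j, q j ∈ X) ∧
    ∃ P : MvPolynomial (Fin n × κ) (MvPolynomial (Fin g) ℤ), Admissible ξ d (T ^ A) (T ^ (-H)) P ∧
      ∃ M : ℕ, T ^ B ≤ (M : ℝ) ∧ (M : ℝ) ≤ T ^ E ∧ ¬ Good κ₀ K M (value ξ (fun z => f z.2 (ι (q z.1)).re) P)}

/-- The assertion for the functions `f_i` on `[a, b]`. -/
def FewExceptions {κ : Type} (f : κ → ℝ → ℝ) (a b : ℝ) : Prop :=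
  ∀ (m n g d K : ℕ) (H A ε : ℝ), 0 ≤ H → 0 ≤ A → 0 < ε → ∃ B : ℝ, 1 ≤ B ∧ ∀ E : ℝ, ∃ κ₀ : ℝ, 0 < κ₀ ∧ ∃ C T₀ : ℝ,
    ∀ (F : Type) [Field F] [NumberField F], Module.finrank ℚ F ≤ m → ∀ (ι : F →+* ℂ) (ξ : Fin g → ℝ) (T : ℝ), T₀ ≤ T →
      (∀ i, |ξ i| ≤ T ^ H) → ∀ X : Finset F, (∀ x ∈ X, IsPoint ι a b T x) →
        (Exceptional n f ι X ξ d K A H κ₀ B E T).Finite ∧
        ((Exceptional n f ι X ξ d K A H κ₀ B E T).ncard : ℝ) ≤ C * T ^ ε * (X.card : ℝ) ^ (n - 1)

/-- Iterated exponentials: `E 0 t = t`, `E (k + 1) t = e ^ (E k t)`. -/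
noncomputable def E : ℕ → ℝ → ℝ
  | 0, t => t
  | k + 1, t => Real.exp (E k t)

/-- The functions `E_1(t), …, E_s(t)` and `log (t + x_i)`, `i < r`. -/
noncomputable def functions {r : ℕ} (s : ℕ) (x : Fin r → ℝ) (z : Fin s ⊕ Fin r) (t : ℝ) : ℝ :=
  match z with
  | Sum.inl k => E ((k : ℕ) + 1) t
  | Sum.inr i => Real.log (t + x i)

theorem few {κ : Type} [Fintype κ] [DecidableEq κ] (f : κ → ℝ → ℝ) (a b : ℝ)
    (han : ∀ i, AnalyticOnNhd ℝ (f i) (Set.Icc a b)) (hind : Pool.Agent.Y120.AInd f a b) : FewExceptions f a b := by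
  intro m n g d K H A ε hH hA hε
  obtain ⟨B, hB, h⟩ := Pool.Agent.Q29.Eqd.badX_count f a b han hind m n g d K H A ε hH hA hε
  refine ⟨B, hB, fun E => ?_⟩
  obtain ⟨κ₀, C, T₀, hκ₀, hC⟩ := h E
  refine ⟨κ₀, hκ₀, C, T₀, fun F _ _ hF ι ξ T hT hξ X hX => ?_⟩
  have hsub : Exceptional n f ι X ξ d K A H κ₀ B E T ⊆ Pool.Agent.Q29.Eqd.BadX n g d K ι X f (T ^ A) (T ^ (-H)) κ₀ (T ^ B) (T ^ E) ξ := by
    rintro q ⟨hq, P, ⟨hP1, hP2, hP3, hP4⟩, hbad⟩
    exact ⟨hq, P, hP1, hP2, hP3, hP4, hbad⟩
  have hfin := Pool.Agent.Q29.Eqd.badX_fin n g d K ι X f (T ^ A) (T ^ (-H)) κ₀ (T ^ B) (T ^ E) ξ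
  refine ⟨hfin.subset hsub, le_trans ?_ (hC F hF ι ξ T hT hξ X hX)⟩
  exact_mod_cast Set.ncard_le_ncard hsub hfin

theorem E_eq : ∀ (k : ℕ) (t : ℝ), E k t = Q23.AQ.It.E k t
  | 0, _ => rfl
  | k + 1, t => by
    show Real.exp (E k t) = Real.exp (Q23.AQ.It.E k t)
    rw [E_eq k t]

/-- Let `a < b` and let `x_1, …, x_r` be distinct real numbers with `a + x_i > 0`. -/
theorem result {r : ℕ} (s : ℕ) (x : Fin r → ℝ) (hx : Function.Injective x) (a b : ℝ) (hab : a < b)
    (hxa : ∀ i, 0 < a + x i) : FewExceptions (functions s x) a b := by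
  have heq : functions s x = Sum.elim (fun k : Fin s => Q23.AQ.It.E ((k : ℕ) + 1)) (TH659.AQ.lf x) := by
    funext z t
    rcases z with k | i
    · exact E_eq _ t
    · rfl
  rw [heq]
  obtain ⟨c, hca, hcx⟩ : ∃ c : ℝ, c < a ∧ ∀ j, c < -x j := by
    refine ⟨-(|a| + 1 + ∑ j, |x j|), ?_, fun j => ?_⟩
    · have h1 : 0 ≤ ∑ j, |x j| := Finset.sum_nonneg fun j _ => abs_nonneg _
      have h2 := neg_abs_le a
      linarith
    · have h1 : |x j| ≤ ∑ j, |x j| := Finset.single_le_sum (f := fun j => |x j|) (fun _ _ => abs_nonneg _) (Finset.mem_univ j)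
      have h2 := le_abs_self (x j)
      have h3 := abs_nonneg a
      linarith
  refine few _ a b ?_ ?_
  · rintro (i | i) t ht
    · exact Q23.AQ.It.E_an _ t
    · exact TH659.AQ.lf_an x i (by linarith [hxa i, ht.1])
  · intro d
    exact Q23.AQ.comb_log (fun k : Fin s => Q23.AQ.It.E ((k : ℕ) + 1)) c a b hca hab
      (fun i t _ => Q23.AQ.It.E_an _ t) (Q23.AQ.It.ind s d a b hab) x hx hcx hxa

end Pool.Agent.Results.MP_209724_lc.MultiplesOfIteratedExponentials
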