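import Mathlib
import Pool.Agent.Q47.AB.OvX
import Pool.Agent.Q23.AQ.It
import Pool.Agent.Q23.AQ.Comb

/-!
# Iterated exponentials at algebraic points: pairs from two arbitrary dense sets

The functions are `e ^ t`, `e ^ (e ^ t)`, … and `log (t + x_i)`; for almost all tuples of algebraic points of any finite set and arbitrary
constants `ξ_i`, every nonconstant polynomial value `x` over `ℤ[ξ]` has the property `PGood`: for arbitrary dense sets `A`, `B` of integers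
the numbers `b x a ^ k c + R_c(a) + y_a`, `(a, c) ∈ A × B`, are uniformly distributed modulo one with a power saving, at all the scales
`M` between `T ^ B` and `T ^ E`.

The proof uses the theorem of helper23 on approximate relations over arbitrary constants at algebraic points (`Q23.AQ.fewR`), a bilinear
estimate and an inverse theorem for the sums of Weyl (`Q47/DG/EqdK`).
-/

set_option autoImplicit false

namespace Pool.Agent.Results.MP_209724_lc.PairsFromDenseSets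

open Finset Polynomial

/-- Polynomials over two dense sets are uniformly distributed at the scale `M`, with a power saving: for all integers
`b ≠ 0` with `|b| ≤ M ^ κ`, all degrees `1 ≤ k ≤ K`, all integers `H ≥ M ^ η`, ALL sets `A` of integers in `[0, M)` and `B` of
integers in `[0, H)` with `|A| |B| ≥ M ^ (1 - κ) H`, all real numbers `y_a`, all real polynomials `R_c` of degree less than
`k` and all `0 ≤ u ≤ v ≤ 1`, the number of the pairs `(a, c) ∈ A × B` with the fractional part of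
`b x a ^ k c + R_c(a) + y_a` in `[u, v)` is `(v - u) |A| |B|`, up to `|A| |B| M ^ (-κ)`. -/
def PGood (K : ℕ) (η κ : ℝ) (M : ℕ) (x : ℝ) : Prop :=
  ∀ b : ℤ, b ≠ 0 → |(b : ℝ)| ≤ (M : ℝ) ^ κ → ∀ k : ℕ, 1 ≤ k → k ≤ K → ∀ H : ℕ, (M : ℝ) ^ η ≤ H →
    ∀ A B : Finset ℕ, (∀ a ∈ A, a < M) → (∀ c ∈ B, c < H) → (M : ℝ) ^ (1 - κ) * H ≤ #A * #B →
    ∀ (y : ℕ → ℝ) (R : ℕ → ℝ[X]), (∀ c, (R c).degree < k) → ∀ u v : ℝ, 0 ≤ u → u ≤ v → v ≤ 1 →
      |(#{i ∈ A ×ˢ B | u ≤ Int.fract (b * x * i.1 ^ k * i.2 + (R i.2).eval (i.1 : ℝ) + y i.1) ∧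
          Int.fract (b * x * i.1 ^ k * i.2 + (R i.2).eval (i.1 : ℝ) + y i.1) < v} : ℝ) -
        (v - u) * (#A * #B)| ≤ #A * #B * (M : ℝ) ^ (-κ)

theorem pgood_iff (K : ℕ) (η κ : ℝ) (M : ℕ) (x : ℝ) : PGood K η κ M x ↔ Pool.Agent.Q47.DG.PGood K η κ M x := Iff.rfl

/-- The value at `y` of the polynomial `P` whose coefficients are integer polynomials in the numbers `ξ_1, …, ξ_g`. -/
noncomputable def value {g : ℕ} {τ : Type} (ξ : Fin g → ℝ) (y : τ → ℝ) (P : MvPolynomial τ (MvPolynomial (Fin g) ℤ)) : ℝ :=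
  MvPolynomial.eval₂ (MvPolynomial.aeval ξ : MvPolynomial (Fin g) ℤ →ₐ[ℤ] ℝ).toRingHom y P

/-- The polynomials of degree at most `d` in every variable whose coefficients are polynomials in `ξ_1, …, ξ_g` of degree at most
`d` in every variable with integer coefficients of absolute value at most `R`, with a nonconstant coefficient whose value is at
least `r` in absolute value. -/
def Admissible {g : ℕ} {τ : Type} (ξ : Fin g → ℝ) (d : ℕ) (R r : ℝ) (P : MvPolynomial τ (MvPolynomial (Fin g) ℤ)) : Prop :=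
  (∀ j, P.degreeOf j ≤ d) ∧ (∀ e i, (P.coeff e).degreeOf i ≤ d) ∧ (∀ e u, |(((P.coeff e).coeff u : ℤ) : ℝ)| ≤ R) ∧
    ∃ e, e ≠ 0 ∧ r ≤ |MvPolynomial.aeval ξ (P.coeff e)|

/-- The numbers of a number field `F`, with an embedding `ι`, which are in `[a, b]` and are quotients of integers of `F` all of
whose conjugates have absolute value at most `T`. -/
def IsPoint {F : Type} [Field F] (ι : F →+* ℂ) (a b T : ℝ) (x : F) : Prop :=
  (∃ t : ℝ, a ≤ t ∧ t ≤ b ∧ ι x = t) ∧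
    ∃ α β : NumberField.RingOfIntegers F, β ≠ 0 ∧ (∀ φ : F →+* ℂ, ‖φ α‖ ≤ T ∧ ‖φ β‖ ≤ T) ∧ x = α / β

/-- The `n`-tuples `q` of numbers of `X` for which there are an admissible polynomial `P` and an `M` between `T ^ B` and `T ^ E`
such that its value at the numbers `f_i(q_j)` does not have the property `PGood` at the scale `M`. -/
def Exceptional {κ F : Type} [Field F] {g : ℕ} (n : ℕ) (f : κ → ℝ → ℝ) (ι : F →+* ℂ) (X : Finset F) (ξ : Fin g → ℝ)
    (d K : ℕ) (η A H κ₀ B E T : ℝ) : Set (Fin n → F) :=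
  {q | (∀ j, q j ∈ X) ∧
    ∃ P : MvPolynomial (Fin n × κ) (MvPolynomial (Fin g) ℤ), Admissible ξ d (T ^ A) (T ^ (-H)) P ∧
      ∃ M : ℕ, T ^ B ≤ (M : ℝ) ∧ (M : ℝ) ≤ T ^ E ∧ ¬ PGood K η κ₀ M (value ξ (fun z => f z.2 (ι (q z.1)).re) P)}

/-- The assertion for the functions `f_i` on `[a, b]`. -/
def FewExceptions {κ : Type} (f : κ → ℝ → ℝ) (a b : ℝ) : Prop :=
  ∀ (m n g d : ℕ) (H A ε : ℝ), 0 ≤ H → 0 ≤ A → 0 < ε → ∃ B : ℝ, 1 ≤ B ∧ ∀ (K : ℕ) (η : ℝ), 0 < η → ∀ E : ℝ,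
    ∃ κ₀ : ℝ, 0 < κ₀ ∧ ∃ C T₀ : ℝ,
    ∀ (F : Type) [Field F] [NumberField F], Module.finrank ℚ F ≤ m → ∀ (ι : F →+* ℂ) (ξ : Fin g → ℝ) (T : ℝ), T₀ ≤ T →
      (∀ i, |ξ i| ≤ T ^ H) → ∀ X : Finset F, (∀ x ∈ X, IsPoint ι a b T x) →
        (Exceptional n f ι X ξ d K η A H κ₀ B E T).Finite ∧
        ((Exceptional n f ι X ξ d K η A H κ₀ B E T).ncard : ℝ) ≤ C * T ^ ε * (X.card : ℝ) ^ (n - 1)

/-- Iterated exponentials: `E 0 t = t`, `E (k + 1) t = e ^ (E k t)`. -/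
noncomputable def E : ℕ → ℝ → ℝ
  | 0, t => t
  | k + 1, t => Real.exp (E k t)

/-- The functions `E_1(t), …, E_s(t)` and `log (t + x_i)`, `i < r`. -/
noncomputable def functions {r : ℕ} (s : ℕ) (x : Fin r → ℝ) (z : Fin s ⊕ Fin r) (t : ℝ) : ℝ :=
  match z with
  | Sum.inl k => E ((k : ℕ) + 1) t
  | Sum.inr i => Real.log (t + x i)

theorem few {κ : Type} [Fintype κ] [DecidableEq κ] (f : κ → ℝ → ℝ) (a b : ℝ)
    (han : ∀ i, AnalyticOnNhd ℝ (f i) (Set.Icc a b)) (hind : Pool.Agent.Y120.AInd f a b) : FewExceptions f a b := by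
  intro m n g d H A ε hH hA hε
  obtain ⟨B, hB, h⟩ := Pool.Agent.Q47.AB.badX_count f a b han hind m n g d H A ε hH hA hε
  refine ⟨B, hB, fun K η hη E => ?_⟩
  obtain ⟨κ₀, C, T₀, hκ₀, hC⟩ := h (PGood K η) (Pool.Agent.Q47.DG.Abs.engine_prod K η hη) E
  refine ⟨κ₀, hκ₀, C, T₀, fun F _ _ hF ι ξ T hT hξ X hX => ?_⟩
  have hsub : Exceptional n f ι X ξ d K η A H κ₀ B E T ⊆ Pool.Agent.Q47.AB.BadX (PGood K η) n g d ι X f (T ^ A) (T ^ (-H)) κ₀ (T ^ B) (T ^ E) ξ := by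
    rintro q ⟨hq, P, ⟨hP1, hP2, hP3, hP4⟩, hbad⟩
    exact ⟨hq, P, hP1, hP2, hP3, hP4, hbad⟩
  have hfin := Pool.Agent.Q47.AB.badX_fin (PGood K η) n g d ι X f (T ^ A) (T ^ (-H)) κ₀ (T ^ B) (T ^ E) ξ
  refine ⟨hfin.subset hsub, le_trans ?_ (hC F hF ι ξ T hT hξ X hX)⟩
  exact_mod_cast Set.ncard_le_ncard hsub hfin

theorem E_eq : ∀ (k : ℕ) (t : ℝ), E k t = Q23.AQ.It.E k t
  | 0, _ => rfl
  | k + 1, t => by
    show Real.exp (E k t) = Real.exp (Q23.AQ.It.E k t)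
    rw [E_eq k t]

/-- Let `a < b` and let `x_1, …, x_r` be distinct real numbers with `a + x_i > 0`. -/
theorem result {r : ℕ} (s : ℕ) (x : Fin r → ℝ) (hx : Function.Injective x) (a b : ℝ) (hab : a < b)
    (hxa : ∀ i, 0 < a + x i) : FewExceptions (functions s x) a b := by
  have heq : functions s x = Sum.elim (fun k : Fin s => Q23.AQ.It.E ((k : ℕ) + 1)) (TH659.AQ.lf x) := by
    funext z t
    rcases z with k | i
    · exact E_eq _ t
    · rfl
  rw [heq]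
  obtain ⟨c, hca, hcx⟩ : ∃ c : ℝ, c < a ∧ ∀ j, c < -x j := by
    refine ⟨-(|a| + 1 + ∑ j, |x j|), ?_, fun j => ?_⟩
    · have h1 : 0 ≤ ∑ j, |x j| := Finset.sum_nonneg fun j _ => abs_nonneg _
      have h2 := neg_abs_le a
      linarith
    · have h1 : |x j| ≤ ∑ j, |x j| := Finset.single_le_sum (f := fun j => |x j|) (fun _ _ => abs_nonneg _) (Finset.mem_univ j)
      have h2 := le_abs_self (x j)
      have h3 := abs_nonneg a
      linarith
  refine few _ a b ?_ ?_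
  · rintro (i | i) t ht
    · exact Q23.AQ.It.E_an _ t
    · exact TH659.AQ.lf_an x i (by linarith [hxa i, ht.1])
  · intro d
    exact Q23.AQ.comb_log (fun k : Fin s => Q23.AQ.It.E ((k : ℕ) + 1)) c a b hca hab
      (fun i t _ => Q23.AQ.It.E_an _ t) (Q23.AQ.It.ind s d a b hab) x hx hcx hxa

end Pool.Agent.Results.MP_209724_lc.PairsFromDenseSets
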