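import Pool.Agent.Q229.RAM
import Pool.Agent.Q192.QD.ExpAll

/-!
# Axiom (SEAC) (i) in the complex exponential field: genericity of the solutions at ALL number field points near almost every point

Let `V_a ⊆ ℂ^n × (ℂ^*)^n` be an algebraic family of varieties of dimension `n` which depends on a parameter `a`, and let
`(z(a), exp z(a)) ∈ V_a` be a solution which depends analytically on `a`. For algebraic `a` the axiom (SEAC) (i) asks for solutions
which are generic over the field of definition, `tr.deg_(ℚ(a)) (z(a), exp z(a)) = n = dim V_a` (a consequence of (SC) if the numbers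
`z_i(a)` are linearly independent over `ℚ`).

We use the form of the file `GenericSolutions` (helper192): `U` is an open connected set, `z_1, …, z_n` are analytic on `U`, no
nontrivial combination `∑ m_i z_i` with integral coefficients is constant, and `B` is a set of `n` of the `2 n` functions
`z_i, exp z_i` such that all `2 n` functions are algebraic over the field `ℂ(a, B)`.

That file bounds the number of the exceptional parameters of a given height. We consider `N` families, arbitrary complex numbers
`ξ_1, …, ξ_g`, and prove that near every point `x` of `U_1 × ⋯ × U_N` outside a set of small Hausdorff dimension there are no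
exceptional points at all. For one family (`N = 1`) the set has dimension `0`: for all `x` outside this set, for all number fields `F`
in `ℂ`, all `m`, `d`, `A` and `τ > 0`, and all numbers `a` of `F` of degree at most `m` and sufficiently large height `T` with
`|x - a| ≤ T^(-τ)`, the solution for the parameter `a` does not satisfy any approximate relation of degree at most `d` in each
variable with coefficients `∑ ξ_i c_i`, `c_i` integers of `ℚ(a)` of size at most `T^A`.

Proof: by Ax's theorem `a` and the functions in `B` are independent (`Q192.QD.expAll`); the counting theorem `Q192.QD.fields_sigma` of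
the team, and a covering argument (`Q229.RAC`, `Q229.RAM`).
-/

set_option autoImplicit false

open MeasureTheory Filter

namespace Pool.Agent.Results.MP_209724_lc.SolutionsNearComplexPoints

open Pool.Agent.Q229.RAN (Near NoRelation)

/-- The functions `z_i` (`Sum.inl i`) and `exp z_i` (`Sum.inr i`). -/
noncomputable def value {n : ℕ} (z : Fin n → ℂ → ℂ) (a : ℂ) : Fin n ⊕ Fin n → ℂ :=
  Sum.elim (fun i => z i a) (fun i => Complex.exp (z i a))

/-- `f` is algebraic over the field generated over `ℂ` by `a` and the functions `h b`, `b ∈ B`, on `U`: there is a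
polynomial `Q` in one variable with coefficients in `ℂ[a, h]`, which is not zero as a function on `U`, with `Q(f) = 0`. -/
def AlgebraicOver (U : Set ℂ) {B : Type} (h : B → ℂ → ℂ) (f : ℂ → ℂ) : Prop :=
  ∃ Q : Polynomial (MvPolynomial (Option B) ℂ),
    (∃ a ∈ U, Q.map (MvPolynomial.eval fun o : Option B => o.elim a fun b => h b a) ≠ 0) ∧
    ∀ a ∈ U, (Q.map (MvPolynomial.eval fun o : Option B => o.elim a fun b => h b a)).eval (f a) = 0

/-- A family of solutions `(z(a), exp z(a))` and `n` of the `2 n` functions over which all are algebraic. -/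
structure Solution (U : Set ℂ) {n : ℕ} (z : Fin n → ℂ → ℂ) (B : Finset (Fin n ⊕ Fin n)) : Prop where
  pos : 0 < n
  isOpen : IsOpen U
  isPreconnected : IsPreconnected U
  nonempty : U.Nonempty
  analytic : ∀ i, AnalyticOnNhd ℂ (z i) U
  /-- no nontrivial combination with integral coefficients of the `z_i` is constant -/
  free : ∀ (m : Fin n → ℤ) (c : ℂ), (∀ a ∈ U, ∑ i, (m i : ℂ) * z i a = c) → m = 0
  card : B.card = n
  /-- all functions are algebraic over `ℂ(a, B)` -/
  algebraic : ∀ o, AlgebraicOver U (fun (b : {b // b ∈ B}) a => value z a b.1) (fun a => value z a o)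

theorem value_eq {n : ℕ} (z : Fin n → ℂ → ℂ) (a : ℂ) (o : Fin n ⊕ Fin n) : value z a o = Q192.QD.yE z o a := by
  rcases o with o | o <;> rfl

theorem value_an {U : Set ℂ} {n : ℕ} {z : Fin n → ℂ → ℂ} {B : Finset (Fin n ⊕ Fin n)} (h : Solution U z B)
    (o : Fin n ⊕ Fin n) : AnalyticOnNhd ℂ (fun a => value z a o) U := by
  rcases o with o | o
  · exact h.analytic o
  · exact fun a ha => (h.analytic o a ha).cexp

/-- the functions in `B` are independent -/
theorem loc {U : Set ℂ} {n : ℕ} {z : Fin n → ℂ → ℂ} {B : Finset (Fin n ⊕ Fin n)} (h : Solution U z B) :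
    ∀ t ∈ U, Y124.LocInd (fun (b : {b // b ∈ B}) a => value z a b.1) t :=
  Q192.QD.expAll h.pos h.isOpen h.isPreconnected h.nonempty h.analytic h.free
    (by rw [Fintype.card_coe, h.card]) (fun b => value_an h b.1) fun o => by
      have h1 := h.algebraic o
      have h2 : (fun a => value z a o) = Q192.QD.yE z o := funext fun a => value_eq z a o
      rw [h2] at h1
      exact h1

/-- For `N ≥ 1` families of solutions, with the sets `B_j` of `n_j` functions, and arbitrary complex numbers `ξ_1, …, ξ_g`:

(1) for all `m` and `τ > 0` there is a set `Z ⊂ ℂ^N` of Hausdorff dimension at most `(m + 1) (N - 1) / τ` such that for all `x`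
outside `Z` in `U_1 × ⋯ × U_N`, all number fields `F_1, …, F_N` in `ℂ`, all `d` and `A`, some `E` and all sufficiently large `T`: for
ALL `a` with `a_j ∈ F_j` of degree at most `m` and height at most `T` and `|x_j - a_j| ≤ T^(-τ)`, the coordinates in `B_1, …, B_N` of
the solutions of the `N` systems do not satisfy any relation of degree at most `d` in each variable, with coefficients `∑ ξ_i c_i`,
`c_i` integers of `ℚ(a_1, …, a_N)` with all conjugates at most `T^A`, even up to the error `T^(-E)`;

(2) for one family a set of Hausdorff dimension `0` has this property for all `m` and `τ > 0` at once. -/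
theorem result {N : ℕ} (hN : 1 ≤ N) {n : Fin N → ℕ} (U : Fin N → Set ℂ) (z : ∀ j, Fin (n j) → ℂ → ℂ)
    (B : ∀ j, Finset (Fin (n j) ⊕ Fin (n j))) (hU : ∀ j, Solution (U j) (z j) (B j)) {g : ℕ} (ξ : Fin g → ℂ) :
    (∀ (m : ℕ) (τ : ℝ), 0 < τ →
      ∃ Z : Set (Fin N → ℂ), dimH Z ≤ ENNReal.ofReal (((m : ℝ) + 1) * ((N : ℝ) - 1) / τ) ∧
      ∀ x : Fin N → ℂ, (∀ j, x j ∈ U j) → x ∉ Z → ∀ F : Fin N → IntermediateField ℚ ℂ,
        (∀ j, FiniteDimensional ℚ (F j)) → ∀ (d : ℕ) (A : ℝ), ∃ E : ℝ, ∀ᶠ T : ℝ in atTop, ∀ a : Fin N → ℂ,
          Near m F τ T x a → NoRelation (fun j (b : {b // b ∈ B j}) a => value (z j) a b.1) ξ d A E T a) ∧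
    (N = 1 → ∃ Z : Set (Fin N → ℂ), dimH Z = 0 ∧
      ∀ x : Fin N → ℂ, (∀ j, x j ∈ U j) → x ∉ Z → ∀ F : Fin N → IntermediateField ℚ ℂ,
        (∀ j, FiniteDimensional ℚ (F j)) → ∀ (m d : ℕ) (τ A : ℝ), 0 < τ → ∃ E : ℝ, ∀ᶠ T : ℝ in atTop,
          ∀ a : Fin N → ℂ, Near m F τ T x a →
            NoRelation (fun j (b : {b // b ∈ B j}) a => value (z j) a b.1) ξ d A E T a) :=
  Q229.RAN.main hN (fun j => (hU j).isOpen) (fun j => (hU j).isPreconnected)
    (y := fun j (b : {b // b ∈ B j}) a => value (z j) a b.1) (fun j b => value_an (hU j) b.1) (fun j => loc (hU j)) ξ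

end Pool.Agent.Results.MP_209724_lc.SolutionsNearComplexPoints
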